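import Mathlib

/-!
# Retractional skeletons without a common subskeleton
-/

open Set Filter Topology Cardinal

namespace Pool.Agent.Results.MP_fb95e7_gt.NoCommonSubskeleton

universe u v w

/-- A retractional skeleton on the space `K`, indexed by `Γ`. -/
structure Skeleton (K : Type u) [TopologicalSpace K] where
  /-- the index set -/
  Γ : Type v
  /-- its order -/
  [po : PartialOrder Γ]
  /-- the retractions -/
  r : Γ → K → K
  nonempty : Nonempty Γ
  directed : ∀ s t : Γ, ∃ u, s ≤ u ∧ t ≤ u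
  sigmaComplete : ∀ s : ℕ → Γ, Monotone s → ∃ t, IsLUB (range s) t
  cont : ∀ s, Continuous (r s)
  idem : ∀ s x, r s (r s x) = r s x
  metr : ∀ s, TopologicalSpace.MetrizableSpace (range (r s))
  comp_le : ∀ s t, s ≤ t → r s = r s ∘ r t ∧ r s = r t ∘ r s
  seq : ∀ (s : ℕ → Γ) (t : Γ), StrictMono s → IsLUB (range s) t →
    ∀ x, Tendsto (fun n => r (s n) x) atTop (𝓝 (r t x))
  lim : ∀ x, Tendsto (fun s => r s x) atTop (𝓝 x)

attribute [instance] Skeleton.po

/-- The set induced by a retractional skeleton. -/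
def Skeleton.D {K : Type u} [TopologicalSpace K] (s : Skeleton.{u, v} K) : Set K :=
  ⋃ i : s.Γ, range (s.r i)

/-- `c` is, up to re-indexing by an order isomorphism, a subskeleton of `s`. -/
def IsSubskeleton {K : Type u} [TopologicalSpace K] (c : Skeleton.{u, w} K)
    (s : Skeleton.{u, v} K) : Prop :=
  ∃ (Γ' : Set s.Γ) (φ : c.Γ ≃o Γ'),
    (∀ a : s.Γ, ∃ b ∈ Γ', a ≤ b) ∧
    (∀ (a : ℕ → s.Γ) (b : s.Γ), Monotone a → (∀ n, a n ∈ Γ') → IsLUB (range a) b → b ∈ Γ') ∧
    ∀ i : c.Γ, c.r i = s.r (φ i)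

/-! ## The monotone version of the continuity along sequences -/

theorem tendsto_of_monotone {K : Type u} [TopologicalSpace K] (S : Skeleton.{u, v} K)
    {s : ℕ → S.Γ} (hs : Monotone s) {t : S.Γ} (ht : IsLUB (range s) t) (x : K) :
    Tendsto (fun n => S.r (s n) x) atTop (𝓝 (S.r t x)) := by
  by_cases hev : ∃ N, ∀ n, s n ≤ s N
  · obtain ⟨N, hN⟩ := hev
    have h1 : t = s N := by
      refine le_antisymm (ht.2 ?_) (ht.1 ⟨N, rfl⟩)
      rintro _ ⟨n, rfl⟩
      exact hN n
    refine tendsto_const_nhds.congr' ?_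
    filter_upwards [eventually_ge_atTop N] with n hn
    rw [h1, le_antisymm (hN n) (hs hn)]
  · push Not at hev
    refine tendsto_of_subseq_tendsto fun ns hns => ?_
    have h1 : ∀ m, ∃ m', m < m' ∧ s (ns m) < s (ns m') := by
      intro m
      obtain ⟨n, hn⟩ := hev (ns m)
      obtain ⟨m', hm', hnm⟩ := ((eventually_gt_atTop m).and
        (hns.eventually_ge_atTop (max n (ns m)))).exists
      refine ⟨m', hm', lt_of_le_of_ne (hs ((le_max_right _ _).trans hnm)) ?_⟩
      intro h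
      exact hn (h ▸ hs ((le_max_left _ _).trans hnm))
    choose h hlt hslt using h1
    let ms : ℕ → ℕ := fun k => h^[k] 0
    have hms1 : ∀ k, ms (k + 1) = h (ms k) := fun k => Function.iterate_succ_apply' h k 0
    have hms : StrictMono ms := strictMono_nat_of_lt_succ fun k => by
      rw [hms1]; exact hlt _
    refine ⟨ms, ?_⟩
    refine S.seq (fun k => s (ns (ms k))) t ?_ ⟨?_, ?_⟩ x
    · refine strictMono_nat_of_lt_succ fun k => ?_
      rw [hms1]
      exact hslt _
    · rintro _ ⟨k, rfl⟩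
      exact ht.1 ⟨_, rfl⟩
    · intro b hb
      refine ht.2 ?_
      rintro _ ⟨n, rfl⟩
      obtain ⟨k, hk⟩ := ((hns.comp hms.tendsto_atTop).eventually_ge_atTop n).exists
      exact (hs hk).trans (hb ⟨k, rfl⟩)

/-! ## A long well-ordered set -/

/-- The initial ordinal of cardinality the successor of `κ`. -/
abbrev Lam (κ : Cardinal.{v}) : Type v := (Order.succ κ).ord.ToType

theorem bounded {κ : Cardinal.{v}} (hκ : ℵ₀ ≤ κ) (S : Set (Lam κ)) (hS : #S ≤ κ) :
    ∃ b : Lam κ, ∀ s ∈ S, s < b := by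
  by_contra hcon
  push Not at hcon
  have h1 : (univ : Set (Lam κ)) = ⋃ s : S, Iic s.1 := by
    refine (eq_univ_of_forall fun b => ?_).symm
    obtain ⟨s, hs, hbs⟩ := hcon b
    exact mem_iUnion.2 ⟨⟨s, hs⟩, hbs⟩
  have h6 : #(Lam κ) = Order.succ κ := mk_ord_toType _
  have h2 : ∀ s : Lam κ, #(Iic s) ≤ κ := by
    intro s
    have h3 : #(Iio s) < #(Lam κ) := mk_Iio_lt s (by rw [h6]; simp)
    rw [h6] at h3
    have h4 : #(Iio s) ≤ κ := Order.lt_succ_iff.1 h3
    have h5 : Iic s = insert s (Iio s) := by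
      ext t
      simp [le_iff_lt_or_eq, or_comm]
    rw [h5]
    refine (mk_insert_le).trans ?_
    exact add_le_of_le hκ h4 (one_le_aleph0.trans hκ)
  have h7 : #(univ : Set (Lam κ)) ≤ κ := by
    rw [h1]
    refine (mk_iUnion_le _).trans ?_
    refine (mul_le_mul' hS (ciSup_le' fun s : S => h2 s.1)).trans ?_
    exact (mul_eq_self hκ).le
  have h8 : #(Lam κ) ≤ κ := mk_univ.symm.le.trans h7
  rw [h6] at h8
  exact absurd (Order.lt_succ κ) (not_lt.2 h8)

theorem exists_lub {κ : Cardinal.{v}} (hκ : ℵ₀ ≤ κ) (s : ℕ → Lam κ) :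
    ∃ t, IsLUB (range s) t := by
  have h1 : ∃ b : Lam κ, ∀ a ∈ range s, a < b := by
    apply bounded hκ
    exact (mk_le_aleph0_iff.2 (countable_range s).to_subtype).trans hκ
  obtain ⟨b, hb⟩ := h1
  have hne : (upperBounds (range s)).Nonempty := ⟨b, fun a ha => (hb a ha).le⟩
  refine ⟨WellFounded.min wellFounded_lt _ hne, WellFounded.min_mem _ _ hne, fun c hc => ?_⟩
  exact not_lt.1 (WellFounded.not_lt_min wellFounded_lt _ hc)

/-! ## The second skeleton -/

theorem isLUB_fst {Γ : Type v} [PartialOrder Γ] {Λ : Type w} [PartialOrder Λ] {s : ℕ → Γ × Λ}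
    {t : Γ × Λ} (h : IsLUB (range s) t) : IsLUB (range fun n => (s n).1) t.1 := by
  have h1 := (isLUB_prod).1 h
  have h2 : (range fun n => (s n).1) = Prod.fst '' range s := by
    rw [← range_comp]; rfl
  rw [h2]
  exact h1.1

/-- The product of a skeleton with a long well-ordered set. -/
noncomputable def prodSkeleton {K : Type u} [TopologicalSpace K] (S : Skeleton.{u, v} K) :
    Skeleton.{u, v} K where
  Γ := S.Γ × Lam (max #S.Γ ℵ₀)
  r p := S.r p.1
  nonempty := by
    obtain ⟨a⟩ := S.nonempty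
    obtain ⟨b, _⟩ := bounded (le_max_right #S.Γ ℵ₀) ∅ (by simp)
    exact ⟨(a, b)⟩
  directed := by
    rintro ⟨a, b⟩ ⟨c, d⟩
    obtain ⟨e, he1, he2⟩ := S.directed a c
    exact ⟨(e, max b d), ⟨he1, le_max_left _ _⟩, ⟨he2, le_max_right _ _⟩⟩
  sigmaComplete := by
    intro s hs
    obtain ⟨a, ha⟩ := S.sigmaComplete (fun n => (s n).1) fun m n h => (hs h).1
    obtain ⟨b, hb⟩ := exists_lub (le_max_right #S.Γ ℵ₀) fun n => (s n).2
    refine ⟨(a, b), ?_⟩
    rw [isLUB_prod, ← range_comp, ← range_comp]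
    exact ⟨ha, hb⟩
  cont p := S.cont p.1
  idem p := S.idem p.1
  metr p := S.metr p.1
  comp_le p q h := S.comp_le p.1 q.1 (Prod.le_def.1 h).1
  seq s t hs ht x := tendsto_of_monotone S (fun m n h => (hs.monotone h).1) (isLUB_fst ht) x
  lim x := by
    have h : Tendsto (fun p : S.Γ × Lam (max #S.Γ ℵ₀) => p.1) atTop atTop := by
      rw [← prod_atTop_atTop_eq]
      exact tendsto_fst
    exact (S.lim x).comp h

theorem D_prodSkeleton {K : Type u} [TopologicalSpace K] (S : Skeleton.{u, v} K) :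
    (prodSkeleton S).D = S.D := by
  obtain ⟨b, _⟩ := bounded (le_max_right #S.Γ ℵ₀) ∅ (by simp)
  apply subset_antisymm
  · rintro x hx
    obtain ⟨p, hp⟩ := mem_iUnion.1 hx
    exact mem_iUnion.2 ⟨p.1, hp⟩
  · rintro x hx
    obtain ⟨i, hi⟩ := mem_iUnion.1 hx
    exact mem_iUnion.2 ⟨(i, b), hi⟩

theorem no_common {K : Type u} [TopologicalSpace K] (S : Skeleton.{u, v} K)
    (c : Skeleton.{u, w} K) (h1 : IsSubskeleton c S) (h2 : IsSubskeleton c (prodSkeleton S)) :
    False := by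
  obtain ⟨Γ₁, φ, -⟩ := h1
  obtain ⟨Γ₂, ψ, hcof, -⟩ := h2
  -- the image of the second projection is bounded
  let e : Γ₂ ≃ Γ₁ := ψ.symm.toEquiv.trans φ.toEquiv
  have hcard : #Γ₂ ≤ max #S.Γ ℵ₀ := (mk_congr e).le.trans ((mk_set_le _).trans (le_max_left _ _))
  obtain ⟨b, hb⟩ := bounded (le_max_right #S.Γ ℵ₀)
    (Prod.snd '' (Γ₂ : Set (S.Γ × Lam (max #S.Γ ℵ₀)))) (mk_image_le.trans hcard)
  obtain ⟨a⟩ := S.nonempty
  obtain ⟨p, hp, hle⟩ := hcof (a, b)
  exact absurd (hb _ ⟨p, hp, rfl⟩) (not_lt.2 hle.2)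

/-- The trivial skeleton of a metrizable space. -/
def trivialSkeleton (K : Type u) [TopologicalSpace K] [TopologicalSpace.MetrizableSpace K] :
    Skeleton.{u, v} K where
  Γ := PUnit
  r _ := id
  nonempty := ⟨PUnit.unit⟩
  directed _ _ := ⟨PUnit.unit, le_rfl, le_rfl⟩
  sigmaComplete _ _ := ⟨PUnit.unit, fun _ _ => le_rfl, fun _ _ => le_rfl⟩
  cont _ := continuous_id
  idem _ _ := rfl
  metr _ := inferInstance
  comp_le _ _ _ := ⟨rfl, rfl⟩
  seq _ _ _ _ _ := tendsto_const_nhds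
  lim _ := tendsto_const_nhds

/-- Every retractional skeleton `s` on a compact space `K` starts a sequence of retractional
skeletons inducing the same set and without a common subskeleton. Every metrizable compact
space has a retractional skeleton. -/
theorem result :
    (∀ (K : Type u) [TopologicalSpace K] [CompactSpace K] [T2Space K] (s : Skeleton.{u, v} K),
      ∃ t : ℕ → Skeleton.{u, v} K, t 0 = s ∧ (∀ n, (t n).D = s.D) ∧
        ¬ ∃ c : Skeleton.{u, w} K, ∀ n, IsSubskeleton c (t n)) ∧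
    (∀ (K : Type u) [TopologicalSpace K] [CompactSpace K] [TopologicalSpace.MetrizableSpace K],
      Nonempty (Skeleton.{u, v} K)) := by
  refine ⟨?_, fun K _ _ _ => ⟨trivialSkeleton K⟩⟩
  intro K _ _ _ s
  refine ⟨fun n => if n = 0 then s else prodSkeleton s, rfl, fun n => ?_, ?_⟩
  · by_cases hn : n = 0
    · simp [hn]
    · simp [hn, D_prodSkeleton]
  · rintro ⟨c, hc⟩
    have h0 := hc 0
    have h1 := hc 1
    simp only [if_true] at h0
    simp only [one_ne_zero, if_false] at h1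
    exact no_common s c h0 h1

end Pool.Agent.Results.MP_fb95e7_gt.NoCommonSubskeleton
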